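import Pool.Agent.Lib.MP_df705a_gt.Mg.G065

/-!
# The lift of the translations of `M × F`
-/

open scoped Manifold ContDiff Topology
open Set Bundle Module Filter

noncomputable section

namespace Pool.Agent.Lib.MP_df705a_gt.CG

open Pool.Agent.Lib.MP_df705a_gt.Pin

variable {E' : Type*} [NormedAddCommGroup E'] [NormedSpace ℝ E'] [FiniteDimensional ℝ E']
  {E : Type*} [NormedAddCommGroup E] [NormedSpace ℝ E] [FiniteDimensional ℝ E]
  {F : Type*} [NormedAddCommGroup F] [InnerProductSpace ℝ F] [FiniteDimensional ℝ F]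
  {M : Type*} [TopologicalSpace M] [ChartedSpace E M] [IsManifold 𝓘(ℝ, E) ∞ M]
  {q : E' → M} {s : E' → F}

/-- The translations of the factor `F` of `M × F` lift to an action of `F` on `E'` which commutes with
the lifts of all translations. -/
theorem exists_flow (H : StableCover E q s) : ∃ Θ : E' → F → E',
    (∀ u, ContDiff ℝ ∞ fun w => Θ w u) ∧ (∀ w u, q (Θ w u) = q w ∧ s (Θ w u) = s w + u) ∧
    (∀ w, Θ w 0 = w) ∧ (∀ w u v, Θ (Θ w u) v = Θ w (u + v)) ∧
    ∀ (γ : E' → E') (a : F), Continuous γ → (∀ w, q (γ w) = q w ∧ s (γ w) = s w + a) →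
      ∀ w u, γ (Θ w u) = Θ (γ w) u := by
  have hqc : Continuous q := H.smooth_q.continuous
  have hsc : Continuous s := H.smooth_s.continuous
  have hcontr : ContractibleSpace (E' × F) := RealTopologicalVectorSpace.contractibleSpace
  obtain ⟨γ, ⟨hγ0, hγ⟩, -⟩ := H.cov.existsUnique_continuousMap_lifts
    (⟨fun p : E' × F => (q p.1, s p.1 + p.2), (hqc.comp continuous_fst).prodMk
      ((hsc.comp continuous_fst).add continuous_snd)⟩ : C(E' × F, M × F)) (0, 0) 0
    (Prod.ext rfl (add_zero _).symm)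
  have h1 : ∀ w u, q (γ (w, u)) = q w ∧ s (γ (w, u)) = s w + u := by
    intro w u
    have h := congrFun hγ (w, u)
    exact ⟨congrArg Prod.fst h, congrArg Prod.snd h⟩
  have hc := γ.continuous
  have h2 : ∀ w, γ (w, (0 : F)) = w := by
    have := H.cov.eq_of_comp_eq (g₁ := fun w : E' => γ (w, (0 : F))) (g₂ := fun w => w)
      (hc.comp (continuous_id.prodMk continuous_const)) continuous_id (by
        funext w
        refine Prod.ext (h1 w 0).1 ?_
        change s (γ (w, 0)) = s w
        rw [(h1 w 0).2, add_zero]) 0 hγ0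
    exact congrFun this
  refine ⟨fun w u => γ (w, u), fun u => contDiff_lift H (hc.comp (continuous_id.prodMk
    continuous_const)) (a := u) fun w => h1 w u, h1, h2, fun w u v => ?_, fun φ a hφ hφa w u => ?_⟩
  · have := H.cov.eq_of_comp_eq (g₁ := fun p : E' × F × F => γ (γ (p.1, p.2.1), p.2.2))
      (g₂ := fun p : E' × F × F => γ (p.1, p.2.1 + p.2.2)) (by fun_prop) (by fun_prop) (by
        funext p
        refine Prod.ext ?_ ?_
        · change q (γ (γ (p.1, p.2.1), p.2.2)) = q (γ (p.1, p.2.1 + p.2.2))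
          rw [(h1 _ _).1, (h1 _ _).1, (h1 _ _).1]
        · change s (γ (γ (p.1, p.2.1), p.2.2)) = s (γ (p.1, p.2.1 + p.2.2))
          rw [(h1 _ _).2, (h1 _ _).2, (h1 _ _).2, add_assoc]) (0, 0, 0) (by
        change γ (γ (0, 0), 0) = γ (0, 0 + 0)
        rw [add_zero, h2, h2])
    exact congrFun this (w, u, v)
  · have := H.cov.eq_of_comp_eq (g₁ := fun p : E' × F => φ (γ p))
      (g₂ := fun p : E' × F => γ (φ p.1, p.2)) (by fun_prop) (by fun_prop) (by
        funext p
        refine Prod.ext ?_ ?_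
        · change q (φ (γ p)) = q (γ (φ p.1, p.2))
          rw [(h1 _ _).1, (hφa _).1, (hφa _).1]
          exact (h1 p.1 p.2).1
        · change s (φ (γ p)) = s (γ (φ p.1, p.2))
          rw [(h1 _ _).2, (hφa _).2, (hφa _).2]
          have := (h1 p.1 p.2).2
          change s (γ p) = s p.1 + p.2 at this
          rw [this]
          abel) (0, 0) (by
        change φ (γ (0, 0)) = γ (φ 0, 0)
        rw [h2, h2])
    exact congrFun this (w, u)

end Pool.Agent.Lib.MP_df705a_gt.CG
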