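import Pool.Agent.Lib.MP_df705a_gt.SV.St

/-!
# Fillable and combable groups: the definitions of the statement
-/

noncomputable section

namespace Pool.Agent.Lib.MP_df705a_gt.CG

open Pool.Agent.Lib.MP_df705a_gt.SVS (V Act)

/-- By the action `a` the group `G` is the group of the deck transformations of the covering
`(q, s) : ℝᴺ → M × ℝᵏ`: every `γ ∈ G` satisfies `q ∘ γ = q` and `s ∘ γ = s`, and for two points `y, z`
over the same point of `M × ℝᵏ` there is exactly one `γ ∈ G` with `γ y = z`. -/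
structure UDeck {N k : ℕ} {M : Type*} {G : Type*} [Group G] (a : Act G N) (q : V N → M)
    (s : V N → V k) : Prop where
  cover : ∀ γ y, q (a.act γ y) = q y ∧ s (a.act γ y) = s y
  trans : ∀ y z, q z = q y → s z = s y → ∃! γ, a.act γ y = z

variable {G : Type*}

/-- The boundary of a real chain. The chains are finitely supported functions on the tuples
`(g_0, …, g_k)` of elements of the group. -/
def bd {k : ℕ} (y : (Fin (k + 1) → G) →₀ ℝ) : (Fin k → G) →₀ ℝ :=
  y.sum fun g t => ∑ i : Fin (k + 1),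
    Finsupp.single (fun j => g (i.succAbove j)) ((-1 : ℝ) ^ (i : ℕ) * t)

/-- The norm `∑ |x(g_0, …, g_k)| (u(g_0) + … + u(g_k))` with the weight `u`. -/
def wnorm (u : G → ℝ) {k : ℕ} (x : (Fin k → G) →₀ ℝ) : ℝ :=
  ∑ g ∈ x.support, |x g| * ∑ j, u (g j)

variable [Group G]

/-- `x` is a chain of the Rips complex of scale `r`: the simplices of `x` have diameter at most `r`. -/
def IsRips (ℓ : G → ℝ) (r : ℝ) {k : ℕ} (x : (Fin k → G) →₀ ℝ) : Prop :=
  ∀ g ∈ x.support, ∀ i j, ℓ ((g i)⁻¹ * g j) ≤ r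

/-- The group has fillings of subexponential weight in dimension at most `n`. For every `δ > 0` there
are weights `u_0 ≥ u_1 ≥ … ≥ 1` on `G` with `u_i(g h) ≤ C exp (δ ℓ(g)) u_i(h)` such that for `i < n` and
for every scale `r` there are a scale `R` and a number `K` such that every real `i`-cycle `x` (for
`i = 0`: the sum of the coefficients is zero) of the Rips complex of scale `r` is the boundary of an
`(i + 1)`-chain `y` of the Rips complex of scale `R` with `‖y‖ ≤ K ‖x‖` for the weights `u_{i+1}` and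
`u_i`. -/
def Fillable (ℓ : G → ℝ) (n : ℕ) : Prop :=
  ∀ δ : ℝ, 0 < δ → ∃ (u : ℕ → G → ℝ) (C : ℝ),
    (∀ i g, 1 ≤ u i g) ∧ (∀ i g, u (i + 1) g ≤ u i g) ∧
    (∀ i g h, u i (g * h) ≤ C * Real.exp (δ * ℓ g) * u i h) ∧
    ∀ i, i < n → ∀ r : ℝ, ∃ R K : ℝ, ∀ x : (Fin (i + 1) → G) →₀ ℝ, IsRips ℓ r x → bd x = 0 →
      ∃ y : (Fin (i + 2) → G) →₀ ℝ, IsRips ℓ R y ∧ bd y = x ∧
        wnorm (u (i + 1)) y ≤ K * wnorm (u i) x

/-- The paths `t ↦ σ t g` are a combing of polynomial length: they run from `1` to `g` with steps of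
bounded length, they reach `g` after a time which is at most polynomial in `ℓ g` and stay there, and
two of them which end at distance at most `r` are uniformly close at all times. -/
structure IsCombing (ℓ : G → ℝ) (σ : ℕ → G → G) : Prop where
  start : ∀ g, σ 0 g = 1
  stop : ∃ (C : ℝ) (p : ℕ), ∀ (g : G) (t : ℕ), C * (1 + ℓ g) ^ p ≤ t → σ t g = g
  step : ∃ K : ℝ, ∀ t g, ℓ ((σ t g)⁻¹ * σ (t + 1) g) ≤ K
  near : ∀ r : ℝ, ∃ K : ℝ, ∀ t g h, ℓ (g⁻¹ * h) ≤ r → ℓ ((σ t g)⁻¹ * σ t h) ≤ K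

end Pool.Agent.Lib.MP_df705a_gt.CG
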