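import Pool.Agent.Lib.MP_df705a_gt.Mg.G091
import Pool.Agent.Lib.MP_df705a_gt.Mg.G090
import Pool.Agent.Lib.MP_df705a_gt.Comb.Z

/-!
# The final theorem
-/

open scoped Manifold ContDiff

noncomputable section

namespace Pool.Agent.Lib.MP_df705a_gt.CG

open Pool.Agent.Lib.MP_df705a_gt.SVS (V Act IsLength Metric jdet)

variable {n k m : ℕ} {M : Type*} {q : V (2 * m) → M} {s : V (2 * m) → V k}
  {Γ : Type*} [Group Γ] [TopologicalSpace M] [ChartedSpace (V n) M]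
  [IsManifold 𝓘(ℝ, V n) ∞ M] [CompactSpace M]

theorem main (H : Pin.StableCover (V n) q s) (e : n + k = 2 * m) {a : Act Γ (2 * m)}
    (ha : UDeck a q s) (ori : ∀ γ y, 0 < jdet (a.act γ) y) {ℓ : Γ → ℝ} (hℓ : IsLength ℓ)
    (hfin : ∀ r, {γ | ℓ γ ≤ r}.Finite) (hG : Fillable ℓ n ∨ ∃ σ, IsCombing ℓ σ)
    (g : Metric (V n) M) : ¬ Twist.PosScal g := by
  obtain ⟨b, hb, hori⟩ := exists_deck H ha ori
  have h : Fillable ℓ n := hG.elim id fun ⟨_, hσ⟩ => hσ.fillable hℓ n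
  have hL := isLength_lenP (k := k) hℓ
  exact Comb.main H hb hori e hL (finite_lenP hℓ hfin) (h.prod hℓ).old g

end Pool.Agent.Lib.MP_df705a_gt.CG
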